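import Pool.Agent.Helper49.KR.St

/-! # Project KR, module CMM: window matrices are multiplicative -/

set_option autoImplicit false

namespace Pool.Agent.Helper36.KR

open Finset
open Pool.Agent.Helper49.KX Pool.Agent.Helper49.KR

theorem tw_coef {X : Type} [TopologicalSpace X] (h : X ≃ₜ X) (a b : FS X) (k : ℤ) (x : X) :
    tw h a b k x = ∑ m ∈ a.support, a m x * b (k - m) ((h ^ (-m) : X ≃ₜ X) x) := by
  classical
  unfold tw Finsupp.sum
  rw [Finsupp.finsetSum_apply, ContinuousMap.sum_apply]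
  refine Finset.sum_congr rfl fun m _ => ?_
  rw [Finsupp.finsetSum_apply, ContinuousMap.sum_apply]
  by_cases hk : (k - m) ∈ b.support
  · rw [Finset.sum_eq_single (k - m)]
    · show (Finsupp.single (m + (k - m)) (a m * Pool.Agent.Helper49.KX.cmp h (-m) (b (k - m))) k : C(X, ℂ)) x = _
      rw [add_sub_cancel, Finsupp.single_eq_same]
      rfl
    · intro n _ hn
      rw [Finsupp.single_apply, if_neg (by omega)]
      rfl
    · intro h1
      exact absurd hk h1
  · rw [Finset.sum_eq_zero]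
    · rw [Finsupp.notMem_support_iff.1 hk]
      simp
    · intro n hn
      rw [Finsupp.single_apply, if_neg]
      · rfl
      · intro h1
        apply hk
        rwa [show k - m = n by omega]

theorem mem_Zs {r : ℕ} {S : Finset (Fin r)} {w : Fin r → ℂ} : w ∈ Zs r S ↔ ∀ i ∈ S, w i = 0 := Iff.rfl

theorem hCMM : StCmm := by
  classical
  intro θ r a b N N' s hb w hw
  have hw' : ∀ i : Fin r, w i ≠ 0 → N + N' ≤ (i : ℕ) ∧ (i : ℕ) + (N + N') < r := by
    intro i hi
    by_contra hc
    apply hi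
    apply hw i
    simp only [SB, mem_filter, mem_univ, true_and]
    omega
  have hbz : ∀ (m : ℤ) (x : X0), (N' : ℤ) < |m| → b m x = 0 := by
    intro m x hm
    rw [hb m hm]
    rfl
  constructor
  · intro k hk
    simp only [SB, mem_filter, mem_univ, true_and] at hk
    show ∑ i, cw θ r b s k i * w i = 0
    refine Finset.sum_eq_zero fun i _ => ?_
    by_cases hi : w i = 0
    · rw [hi, mul_zero]
    · obtain ⟨h1, h2⟩ := hw' i hi
      have h3 : cw θ r b s k i = 0 := by
        unfold cw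
        apply hbz
        rw [lt_abs]
        omega
      rw [h3, zero_mul]
  · funext k
    show ∑ i, cw θ r (tw (rot θ) a b) s k i * w i = ∑ l, cw θ r a s k l * ∑ i, cw θ r b s l i * w i
    simp_rw [Finset.mul_sum]
    rw [Finset.sum_comm]
    refine Finset.sum_congr rfl fun i _ => ?_
    simp_rw [← mul_assoc]
    rw [← Finset.sum_mul]
    by_cases hi : w i = 0
    · rw [hi, mul_zero, mul_zero]
    congr 1
    obtain ⟨h1, h2⟩ := hw' i hi
    let F : ℤ → ℂ := fun l => a (((k : ℕ) : ℤ) - l) ((s + ((k : ℕ) : ℝ) * θ : ℝ) : X0) *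
      b (l - ((i : ℕ) : ℤ)) ((s + (l : ℝ) * θ : ℝ) : X0)
    have hL : cw θ r (tw (rot θ) a b) s k i = ∑ m ∈ a.support, F (((k : ℕ) : ℤ) - m) := by
      unfold cw
      rw [tw_coef]
      refine Finset.sum_congr rfl fun m _ => ?_
      simp only [F]
      rw [rot_zpow]
      have e1 : ((k : ℕ) : ℤ) - ((i : ℕ) : ℤ) - m = ((k : ℕ) : ℤ) - m - ((i : ℕ) : ℤ) := by ring
      have e2 : ((s + ((k : ℕ) : ℝ) * θ : ℝ) : X0) + ((((-m : ℤ) : ℝ) * θ : ℝ) : X0)
          = ((s + ((((k : ℕ) : ℤ) - m : ℤ) : ℝ) * θ : ℝ) : X0) := by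
        rw [← AddCircle.coe_add]
        congr 1
        push_cast
        ring
      rw [e1, e2, sub_sub_cancel]
    have hR : ∑ l : Fin r, cw θ r a s k l * cw θ r b s l i = ∑ l : Fin r, F ((l : ℕ) : ℤ) := by
      refine Finset.sum_congr rfl fun l _ => ?_
      simp only [F, cw]
      norm_cast
    rw [hL, hR]
    have hF : ∀ l : ℤ, F l ≠ 0 → (((k : ℕ) : ℤ) - l) ∈ a.support ∧ 0 ≤ l ∧ l < r := by
      intro l hl
      have ha1 : a (((k : ℕ) : ℤ) - l) ≠ 0 := by
        intro h0
        apply hl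
        simp only [F, h0]
        simp
      have hb1 : ¬ ((N' : ℤ) < |l - ((i : ℕ) : ℤ)|) := by
        intro h0
        apply hl
        simp only [F]
        rw [hbz _ _ h0, mul_zero]
      rw [not_lt, abs_le] at hb1
      refine ⟨Finsupp.mem_support_iff.2 ha1, ?_, ?_⟩ <;> omega
    have hA : ∑ m ∈ a.support, F (((k : ℕ) : ℤ) - m) = ∑ᶠ l, F l := by
      rw [finsum_eq_sum_of_support_subset (s := a.support.image fun m => ((k : ℕ) : ℤ) - m)]
      · rw [Finset.sum_image]
        intro x _ y _ hxy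
        simpa using hxy
      · intro l hl
        rw [Finset.coe_image]
        exact ⟨((k : ℕ) : ℤ) - l, (hF l hl).1, by ring⟩
    have hB : ∑ l : Fin r, F ((l : ℕ) : ℤ) = ∑ᶠ l, F l := by
      rw [finsum_eq_sum_of_support_subset (s := Finset.image (fun l : Fin r => ((l : ℕ) : ℤ)) Finset.univ)]
      · rw [Finset.sum_image]
        intro x _ y _ hxy
        have : ((x : ℕ) : ℤ) = ((y : ℕ) : ℤ) := hxy
        exact Fin.ext (by exact_mod_cast this)
      · intro l hl
        obtain ⟨-, h3, h4⟩ := hF l hl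
        rw [Finset.coe_image]
        refine ⟨⟨l.toNat, by omega⟩, by simp, ?_⟩
        show ((l.toNat : ℕ) : ℤ) = l
        omega
    rw [hA, hB]

end Pool.Agent.Helper36.KR
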